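import Pool.Agent.Q38.GE.Stm

/-! GE-INV: the inverse of the Jacobian (for helper38, project GE). -/

set_option autoImplicit false

namespace Pool.Agent.Q13.GE

open Q38.GE Matrix

theorem QM_map {R S : Type} [Ring R] [Ring S] (f : R →+* S) {n p : ℕ} (d : ℕ)
    (c : Wd n → Matrix (Fin p) (Fin p) R) (i : Fin n) :
    (QM d c i).map f = QM d (fun u => (c u).map f) i := by
  ext s t
  simp only [QM, Matrix.map_apply]
  split_ifs <;> simp

theorem prod_QM_map {R S : Type} [Ring R] [Ring S] (f : R →+* S) {n p : ℕ} (d : ℕ)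
    (c : Wd n → Matrix (Fin p) (Fin p) R) (w : Wd n) :
    ((w.map (QM d c)).prod).map f = (w.map (QM d (fun u => (c u).map f))).prod := by
  have h1 : ((w.map (QM d c)).prod).map f = f.mapMatrix ((w.map (QM d c)).prod) := rfl
  rw [h1, map_list_prod, List.map_map]
  congr 1
  refine List.map_congr_left fun i _ => ?_
  exact QM_map f d c i

theorem nil_of (h2 : S_DLF) (h5 : S_REG) {K : Type} [Field K] {n : ℕ} (φ : A K n →ₐ[K] A K n)
    (hJ : JStar φ) (G0 : Matrix (Fin n) (Fin n) (A K n)) (hG2 : G0 * Hm φ [] = 1) (d : ℕ)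
    (hd : 1 ≤ d) (hN : ∀ (i : Fin n) (u : Wd n), d + 1 ≤ u.length → trw u (φ (x K i)) = 0)
    (L : Type) [Field L] [IsAlgClosed L] [Algebra K L] (ℓ : ℕ)
    (YL : Fin n → Matrix (Fin ℓ) (Fin ℓ) L) (w : Wd n) (hw : w ≠ []) :
    IsNilpotent ((w.map (QM d (fun u => (-(Hm φ u * G0)).map (ev (K := K) YL)))).prod) := by
  classical
  have hH : ∀ u : Wd n, d + 1 ≤ u.length → Hm φ u = 0 := by
    intro u hu
    ext j i
    simp only [Hm, hN i u hu, map_zero, Matrix.zero_apply]
  refine h5 L n n ℓ d _ hd ?_ ?_ w hw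
  · intro u hu
    show (-(Hm φ u * G0)).map (ev (K := K) YL) = 0
    rw [hH u hu, Matrix.zero_mul, neg_zero]
    exact Matrix.map_zero _ (map_zero _)
  intro r X W hW
  refine hJ L (Fin r) (Fin ℓ) X YL W fun i => ?_
  rw [h2 K n L (Fin r) (Fin ℓ) X YL W (φ (x K i)) (d + 1) (hN i)]
  have hmem : ([] : Wd n) ∈ wds n (d + 1) := by
    simp [wds]
  rw [← Finset.add_sum_erase _ _ hmem]
  -- the coefficients
  have hco : ∀ (u : Wd n) (a : Fin n),
      ∑ b, (-(Hm φ u * G0)).map (ev (K := K) YL) a b * ev (K := K) YL (Hm φ [] b i) =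
        -(ev (K := K) YL (Hm φ u a i)) := by
    intro u a
    have e1 : (-(Hm φ u * G0)) * Hm φ [] = -Hm φ u := by
      rw [Matrix.neg_mul, Matrix.mul_assoc, hG2, Matrix.mul_one]
    have e2 : ((-(Hm φ u * G0)) * Hm φ []) a i = -(Hm φ u a i) := by
      rw [e1]
      rfl
    rw [Matrix.mul_apply] at e2
    have e3 := congrArg (ev (K := K) YL) e2
    rw [map_sum, map_neg] at e3
    rw [← e3]
    refine Finset.sum_congr rfl fun b _ => ?_
    rw [map_mul]
    rfl
  have h3 : ∑ j, mo X [] * W j * ev (K := K) YL (tr j (trw [] (φ (x K i)))) =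
      ∑ b, W b * ev (K := K) YL (Hm φ [] b i) := by
    refine Finset.sum_congr rfl fun b _ => ?_
    show (([] : List (Fin n)).map X).prod * W b * _ = _
    rw [List.map_nil, List.prod_nil, Matrix.one_mul]
    rfl
  rw [h3]
  have h4 : ∑ b, W b * ev (K := K) YL (Hm φ [] b i) =
      ∑ u ∈ (wds n (d + 1)).erase [], ∑ a, mo X u * W a * -(ev (K := K) YL (Hm φ u a i)) := by
    calc ∑ b, W b * ev (K := K) YL (Hm φ [] b i)
        = ∑ b, (∑ u ∈ (wds n (d + 1)).erase [], ∑ a, mo X u * W a *
            (-(Hm φ u * G0)).map (ev (K := K) YL) a b) * ev (K := K) YL (Hm φ [] b i) := by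
          refine Finset.sum_congr rfl fun b _ => ?_
          exact congrArg (· * ev (K := K) YL (Hm φ [] b i)) (hW b)
      _ = ∑ b, ∑ u ∈ (wds n (d + 1)).erase [], ∑ a, mo X u * W a *
            (-(Hm φ u * G0)).map (ev (K := K) YL) a b * ev (K := K) YL (Hm φ [] b i) := by
          refine Finset.sum_congr rfl fun b _ => ?_
          rw [Matrix.sum_mul]
          refine Finset.sum_congr rfl fun u _ => ?_
          rw [Matrix.sum_mul]
      _ = ∑ u ∈ (wds n (d + 1)).erase [], ∑ a, ∑ b, mo X u * W a *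
            (-(Hm φ u * G0)).map (ev (K := K) YL) a b * ev (K := K) YL (Hm φ [] b i) := by
          rw [Finset.sum_comm]
          refine Finset.sum_congr rfl fun u _ => ?_
          rw [Finset.sum_comm]
      _ = ∑ u ∈ (wds n (d + 1)).erase [], ∑ a, mo X u * W a *
            -(ev (K := K) YL (Hm φ u a i)) := by
          refine Finset.sum_congr rfl fun u _ => ?_
          refine Finset.sum_congr rfl fun a _ => ?_
          rw [← hco u a, Matrix.mul_sum]
          refine Finset.sum_congr rfl fun b _ => ?_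
          rw [Matrix.mul_assoc]
  rw [h4, ← Finset.sum_add_distrib]
  refine Finset.sum_eq_zero fun u _ => ?_
  rw [← Finset.sum_add_distrib]
  refine Finset.sum_eq_zero fun a _ => ?_
  rw [Matrix.mul_neg]
  exact neg_add_cancel _

theorem inv (h1 : S_TR) (h2 : S_DLF) (h3 : S_GEO) (h4 : S_PEN) (h5 : S_REG) (h6 : S_DIV)
    (h7 : S_H0) : S_INV := by
  classical
  intro K _ n φ hJ
  obtain ⟨G0, hG1, hG2⟩ := h7 K n φ hJ
  obtain ⟨-, -, -, -, htr5, -⟩ := h1 K n
  choose Nf hNf using fun i => htr5 (φ (x K i))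
  obtain ⟨d, hd1, hd⟩ : ∃ d : ℕ, 1 ≤ d ∧ ∀ i, Nf i ≤ d :=
    ⟨(∑ i, Nf i) + 1, by omega, fun i =>
      (Finset.single_le_sum (fun j _ => Nat.zero_le (Nf j)) (Finset.mem_univ i)).trans
        (Nat.le_succ _)⟩
  have hN : ∀ (i : Fin n) (u : Wd n), d + 1 ≤ u.length → trw u (φ (x K i)) = 0 := by
    intro i u hu
    exact hNf i u (by have := hd i; omega)
  have hH : ∀ u : Wd n, d < u.length → Hm φ u = 0 := by
    intro u hu
    ext j i
    simp only [Hm, hN i u hu, map_zero, Matrix.zero_apply]
  obtain ⟨g, g1, g2, g3⟩ := h3 (Matrix (Fin n) (Fin n) (A K n)) n (fun u => -(Hm φ u * G0))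
  have key : ∀ w : Wd n, (wds n d).card * n ≤ w.length → g w = 0 := by
    intro w hwl
    by_contra hg
    obtain ⟨α, β, hab⟩ : ∃ α β, g w α β ≠ 0 := by
      by_contra hcon
      push Not at hcon
      exact hg (by ext α β; exact hcon α β)
    obtain ⟨D, _, _, E, _, _, ℓ, j, Y, hℓ, hY⟩ := h6 K n (g w α β) hab
    haveI : Nonempty (Fin ℓ) := ⟨⟨0, hℓ⟩⟩
    let L := AlgebraicClosure E
    let J : D →ₐ[K] Matrix (Fin ℓ) (Fin ℓ) L :=
      ((IsScalarTower.toAlgHom K E L).mapMatrix).comp j
    have hJinj : Function.Injective J := RingHom.injective (J : D →+* Matrix (Fin ℓ) (Fin ℓ) L)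
    have hev : ∀ a : A K n, ev (K := K) (fun i => J (Y i)) a = J (ev (K := K) Y a) := by
      intro a
      have : ev (K := K) (fun i => J (Y i)) = J.comp (ev (K := K) Y) := by
        apply FreeAlgebra.hom_ext
        funext i
        simp [ev]
      rw [this]
      rfl
    have hnil : ∀ w : Wd n, w ≠ [] →
        IsNilpotent ((w.map (QM d (fun u => (-(Hm φ u * G0)).map (ev (K := K) Y)))).prod) := by
      intro w hw
      have h8 := nil_of h2 h5 φ hJ G0 hG2 d hd1 hN L ℓ (fun i => J (Y i)) w hw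
      have h9 : (fun u : Wd n => (-(Hm φ u * G0)).map (ev (K := K) (fun i => J (Y i)))) =
          fun u => ((-(Hm φ u * G0)).map (ev (K := K) Y)).map
            (J : D →+* Matrix (Fin ℓ) (Fin ℓ) L) := by
        funext u
        ext1 a b
        exact hev _
      rw [h9, ← prod_QM_map] at h8
      have h10 : Function.Injective ((J : D →+* Matrix (Fin ℓ) (Fin ℓ) L).mapMatrix :
          Matrix ({u // u ∈ wds n d} × Fin n) ({u // u ∈ wds n d} × Fin n) D →+* _) :=
        Matrix.map_injective hJinj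
      exact (IsNilpotent.map_iff h10).1 h8
    have h11 := h4 D n n d (fun u => (-(Hm φ u * G0)).map (ev (K := K) Y)) hd1
      (fun u hu => by
        show (-(Hm φ u * G0)).map (ev (K := K) Y) = 0
        rw [hH u hu, Matrix.zero_mul, neg_zero]
        exact Matrix.map_zero _ (map_zero _)) hnil
      (fun u => (g u).map (ev (K := K) Y))
      (by
        show (g []).map (ev (K := K) Y) = 1
        rw [g1]
        exact Matrix.map_one _ (map_zero _) (map_one _))
      (by
        intro v hv
        show (ev (K := K) Y : A K n →+* D).mapMatrix (g v) = _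
        rw [g3 v hv, map_sum]
        refine Finset.sum_congr rfl fun k _ => ?_
        rw [map_mul]
        rfl) w hwl
    apply hY
    have h12 := congrFun (congrFun h11 α) β
    exact h12
  refine ⟨(wds n d).card * n, fun w => G0 * g w, ?_, ?_⟩
  · intro w hw
    show G0 * g w = 0
    rw [key w hw, Matrix.mul_zero]
  · intro w
    by_cases hw : w = []
    · subst hw
      rw [if_pos rfl]
      simp only [List.length_nil, zero_add, Finset.range_one, Finset.sum_singleton, List.drop_nil,
        List.take_nil]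
      rw [g1, Matrix.mul_one, hG1]
    · rw [if_neg hw, Finset.sum_range_succ]
      have e1 : Hm φ (w.drop w.length) * (G0 * g (w.take w.length)) = g w := by
        rw [List.drop_length, List.take_length, ← Matrix.mul_assoc, hG1, Matrix.one_mul]
      rw [e1]
      have e2 := g2 w hw
      have e3 : ∑ k ∈ Finset.range w.length, Hm φ (w.drop k) * (G0 * g (w.take k)) =
          -∑ k ∈ Finset.range w.length, (-(Hm φ (w.drop k) * G0)) * g (w.take k) := by
        rw [← Finset.sum_neg_distrib]
        refine Finset.sum_congr rfl fun k _ => ?_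
        rw [Matrix.neg_mul, neg_neg, Matrix.mul_assoc]
      rw [e3, ← e2]
      exact neg_add_cancel _

end Pool.Agent.Q13.GE
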